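import Mathlib

/-!
# Polynomials with few terms and prescribed roots
-/

set_option autoImplicit false

namespace Run7.h53.RS

open Polynomial

/-- the roots in the open unit interval, with multiplicities -/
noncomputable def Y (P : ℝ[X]) : Multiset ℝ := P.roots.filter fun x => 0 < x ∧ x < 1

/-- Descartes: a polynomial with `n + 1` terms has at most `n` sign variations -/
lemma sv_le (q : ℝ[X]) (hq : q ≠ 0) : q.signVariations + 1 ≤ q.support.card := by
  obtain ⟨n, hn⟩ : ∃ n, q.support.card = n := ⟨_, rfl⟩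
  induction n generalizing q with
  | zero => exact absurd (Polynomial.card_support_eq_zero.1 hn) hq
  | succ n ih =>
    have h1 := Polynomial.card_support_eraseLead_add_one hq
    by_cases he : q.eraseLead = 0
    · have h2 := signVariations_le_eraseLead_succ (P := q)
      have h3 : q = monomial q.natDegree q.leadingCoeff := by
        have := q.eraseLead_add_monomial_natDegree_leadingCoeff
        rw [he, zero_add] at this
        exact this.symm
      have h4 : q.signVariations = 0 := by
        rw [h3]; exact signVariations_monomial _ _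
      omega
    · have h2 := signVariations_le_eraseLead_succ (P := q)
      have h3 := ih q.eraseLead he (by omega)
      omega

/-- a real polynomial without roots in `(0, 1)` has constant sign there -/
lemma const_sign {R : ℝ[X]} (h : ∀ x : ℝ, 0 < x → x < 1 → R.eval x ≠ 0) :
    (∀ x : ℝ, 0 < x → x < 1 → 0 < R.eval x) ∨ (∀ x : ℝ, 0 < x → x < 1 → R.eval x < 0) := by
  by_contra hcon
  push Not at hcon
  obtain ⟨⟨a, a0, a1, ha⟩, ⟨b, b0, b1, hb⟩⟩ := hcon
  have hc : ContinuousOn (fun x => R.eval x) (Set.uIcc a b) := R.continuous.continuousOn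
  have h0 : (0 : ℝ) ∈ Set.uIcc (R.eval a) (R.eval b) := by
    rw [Set.mem_uIcc]
    exact Or.inl ⟨ha, hb⟩
  obtain ⟨x, hx, hx0⟩ := intermediate_value_uIcc hc h0
  rw [Set.mem_uIcc] at hx
  have hx1 : 0 < x := by rcases hx with h | h <;> linarith [h.1]
  have hx2 : x < 1 := by rcases hx with h | h <;> linarith [h.2]
  exact h x hx1 hx2 hx0

/-- a nonzero combination of the `X ^ s`, `s ∈ T`, which is divisible by a given monic polynomial of smaller degree
than `card T` -/
lemma exists_comb (A : ℝ[X]) (hA : A.Monic) (T : Finset ℕ) (hT : A.natDegree < T.card) :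
    ∃ q : ℝ[X], q ≠ 0 ∧ q.support ⊆ T ∧ A ∣ q := by
  classical
  set mk : (T → ℝ) →ₗ[ℝ] ℝ[X] := ∑ s : T, (LinearMap.smulRight (LinearMap.proj s) (X ^ (s : ℕ) : ℝ[X])) with hmk
  have mk_apply : ∀ a : T → ℝ, mk a = ∑ s : T, a s • (X ^ (s : ℕ) : ℝ[X]) := by
    intro a
    rw [hmk, LinearMap.sum_apply]
    rfl
  set L : (T → ℝ) →ₗ[ℝ] (Fin A.natDegree → ℝ) :=
    LinearMap.pi fun i => (lcoeff ℝ (i : ℕ)).comp ((modByMonicHom A).comp mk) with hL
  have hker : LinearMap.ker L ≠ ⊥ := by
    refine LinearMap.ker_ne_bot_of_finrank_lt ?_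
    rw [Module.finrank_fin_fun, Module.finrank_fintype_fun_eq_card, Fintype.card_coe]
    exact hT
  obtain ⟨a, ha, ha0⟩ := Submodule.exists_mem_ne_zero_of_ne_bot hker
  have hco : ∀ n : ℕ, (mk a).coeff n = if h : n ∈ T then a ⟨n, h⟩ else 0 := by
    intro n
    rw [mk_apply, finsetSum_coeff]
    simp only [coeff_smul, coeff_X_pow, smul_eq_mul, mul_ite, mul_one, mul_zero]
    split_ifs with h
    · rw [Finset.sum_eq_single (⟨n, h⟩ : T)]
      · simp
      · intro s _ hs
        rw [if_neg]
        intro h1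
        exact hs (Subtype.ext h1.symm)
      · intro h1; exact absurd (Finset.mem_univ _) h1
    · refine Finset.sum_eq_zero fun s _ => ?_
      rw [if_neg]
      intro h1
      exact h (h1 ▸ s.2)
  refine ⟨mk a, ?_, ?_, ?_⟩
  · intro h0
    refine ha0 (funext fun s => ?_)
    have := hco s
    rw [h0, coeff_zero, dif_pos s.2] at this
    exact this.symm
  · intro n hn
    rw [mem_support_iff, hco] at hn
    by_contra h
    rw [dif_neg h] at hn
    exact hn rfl
  · rw [← modByMonic_eq_zero_iff_dvd hA]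
    rw [LinearMap.mem_ker] at ha
    ext n
    rw [coeff_zero]
    by_cases hn : n < A.natDegree
    · have := congrFun ha ⟨n, hn⟩
      simpa [hL] using this
    · refine coeff_eq_zero_of_degree_lt ?_
      refine (degree_modByMonic_lt _ hA).trans_le ?_
      rw [degree_eq_natDegree hA.ne_zero]
      exact_mod_cast not_lt.1 hn

/-- **Key.** Let `T` have more than `V + n` elements, `V` the number of the roots of `P` in `(0, 1)`. There is `q ≠ 0` supported
on `T`, divisible by `(X - 1) ^ n`, with `P q ≥ 0` on `(0, 1]`. -/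
theorem key (P : ℝ[X]) (hP : P ≠ 0) (n : ℕ) (T : Finset ℕ) (hT : T.card = Multiset.card (Y P) + n + 1) :
    ∃ q : ℝ[X], q ≠ 0 ∧ q.support ⊆ T ∧ (X - C 1) ^ n ∣ q ∧
      ∀ x : ℝ, 0 < x → x ≤ 1 → 0 ≤ P.eval x * q.eval x := by
  classical
  set A : ℝ[X] := ((Y P).map fun a => X - C a).prod with hA
  have hAm : A.Monic := monic_multiset_prod_of_monic _ _ fun a _ => monic_X_sub_C a
  have hAd : A.natDegree = Multiset.card (Y P) := by
    rw [hA, natDegree_multiset_prod_X_sub_C_eq_card]
  have hAr : A.roots = Y P := roots_multiset_prod_X_sub_C _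
  set E : ℝ[X] := (X - C 1) ^ n with hE
  have hEm : E.Monic := (monic_X_sub_C 1).pow n
  have hEd : E.natDegree = n := by rw [hE, natDegree_pow, natDegree_X_sub_C, mul_one]
  obtain ⟨q, hq0, hqT, ⟨Q, hQ⟩⟩ := exists_comb (A * E) (hAm.mul hEm) T (by
    rw [hAm.natDegree_mul hEm, hAd, hEd, hT]; exact Nat.lt_succ_self _)
  have hQ0 : Q ≠ 0 := by
    rintro rfl
    exact hq0 (by rw [hQ, mul_zero])
  have hYpos : (Y P).countP (0 < ·) = Multiset.card (Y P) := by
    rw [Multiset.countP_eq_card]
    intro a ha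
    exact (Multiset.mem_filter.1 ha).2.1
  have hEpos : E.roots.countP (0 < ·) = n := by
    rw [hE, roots_pow, roots_X_sub_C, Multiset.nsmul_singleton,
      Multiset.countP_eq_card.2 (fun a ha => by rw [Multiset.eq_of_mem_replicate ha]; exact one_pos),
      Multiset.card_replicate]
  -- `Q` has no positive roots
  have hQr : ∀ x : ℝ, 0 < x → Q.eval x ≠ 0 := by
    intro x hx h0
    have h1 := q.roots_countP_pos_le_signVariations
    have h2 := sv_le q hq0
    have h3 := Finset.card_le_card hqT
    have h4 : q.roots = A.roots + E.roots + Q.roots := by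
      rw [hQ, roots_mul (by rw [← hQ]; exact hq0), roots_mul (hAm.mul hEm).ne_zero]
    rw [h4, Multiset.countP_add, Multiset.countP_add, hAr, hYpos, hEpos] at h1
    have h5 : 0 < Q.roots.countP (0 < ·) := by
      rw [Multiset.countP_pos]
      exact ⟨x, (mem_roots hQ0).2 h0, hx⟩
    omega
  obtain ⟨R, hR⟩ : A ∣ P := by
    rw [hA, Multiset.prod_X_sub_C_dvd_iff_le_roots hP]
    exact Multiset.filter_le _ _
  have hR0 : R ≠ 0 := by
    rintro rfl
    exact hP (by rw [hR, mul_zero])
  have hRr : ∀ x : ℝ, 0 < x → x < 1 → R.eval x ≠ 0 := by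
    intro x hx0 hx1 h0
    have h1 : P.roots = A.roots + R.roots := by
      conv_lhs => rw [hR]
      exact roots_mul (by rw [← hR]; exact hP)
    have h2 : Multiset.card (Y P) = Multiset.card (Y P) + Multiset.card (R.roots.filter fun x => 0 < x ∧ x < 1) := by
      have h3 : Y P = (Y P).filter (fun x => 0 < x ∧ x < 1) + R.roots.filter (fun x => 0 < x ∧ x < 1) := by
        conv_lhs => unfold Y
        rw [h1, Multiset.filter_add, hAr]
      have h4 : (Y P).filter (fun x => 0 < x ∧ x < 1) = Y P := by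
        rw [Multiset.filter_eq_self]
        intro a ha
        exact (Multiset.mem_filter.1 ha).2
      conv_lhs => rw [h3, h4]
      rw [Multiset.card_add]
    have h5 : 0 < Multiset.card (R.roots.filter fun x => 0 < x ∧ x < 1) := by
      rw [Multiset.card_pos]
      intro h6
      have : x ∈ R.roots.filter fun x => 0 < x ∧ x < 1 :=
        Multiset.mem_filter.2 ⟨(mem_roots hR0).2 h0, hx0, hx1⟩
      rw [h6] at this
      exact Multiset.notMem_zero _ this
    omega
  have hform : ∀ x : ℝ, P.eval x * q.eval x = A.eval x ^ 2 * (R * (E * Q)).eval x := by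
    intro x
    conv_lhs => rw [hQ, hR]
    rw [eval_mul, eval_mul, eval_mul, eval_mul, eval_mul]
    ring
  have hRQ := const_sign (R := R * (E * Q)) fun x h0 h1 => by
    rw [eval_mul, eval_mul]
    refine mul_ne_zero (hRr x h0 h1) (mul_ne_zero ?_ (hQr x h0))
    rw [hE, eval_pow, eval_sub, eval_X, eval_C]
    exact pow_ne_zero _ (by linarith)
  -- extension to the end point
  have hext : ∀ q' : ℝ[X], (∀ x : ℝ, 0 < x → x < 1 → 0 ≤ P.eval x * q'.eval x) →
      ∀ x : ℝ, 0 < x → x ≤ 1 → 0 ≤ P.eval x * q'.eval x := by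
    intro q' h x h0 h1
    have hcl : IsClosed {x : ℝ | 0 ≤ P.eval x * q'.eval x} :=
      isClosed_le continuous_const (P.continuous.mul q'.continuous)
    have h2 : closure (Set.Ioo (0 : ℝ) 1) ⊆ {x : ℝ | 0 ≤ P.eval x * q'.eval x} :=
      closure_minimal (fun y hy => h y hy.1 hy.2) hcl
    rw [closure_Ioo (by norm_num)] at h2
    exact h2 ⟨h0.le, h1⟩
  rcases hRQ with h | h
  · refine ⟨q, hq0, hqT, ⟨A * Q, by rw [hQ]; ring⟩, hext q fun x h0 h1 => ?_⟩
    rw [hform]
    exact mul_nonneg (sq_nonneg _) (h x h0 h1).le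
  · refine ⟨-q, neg_ne_zero.2 hq0, by rw [support_neg]; exact hqT, ⟨-(A * Q), by rw [hQ]; ring⟩,
      hext (-q) fun x h0 h1 => ?_⟩
    rw [eval_neg, mul_neg, hform, ← mul_neg]
    exact mul_nonneg (sq_nonneg _) (by linarith [h x h0 h1])

end Run7.h53.RS
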